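import Pool.Agent.Q208.FTM.Count

/-!
# Automata for shifted sequences from residuals
-/

set_option autoImplicit false

open Real

namespace Pool.Agent.Q208.FTM

/-- A Fibonacci-DFAO with `k` states: partial transition function, initial state, output. -/
structure DFAO (k : ℕ) where
  /-- transitions (`none`: not defined) -/
  δ : Fin k → Bool → Option (Fin k)
  /-- initial state -/
  q0 : Fin k
  /-- output -/
  out : Fin k → ℕ

/-- the state reached from `q` by reading a word, most significant digit first -/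
def DFAO.run {k : ℕ} (M : DFAO k) : Fin k → List Bool → Option (Fin k)
  | q, [] => some q
  | q, a :: w => (M.δ q a).bind (fun q' => M.run q' w)

/-- `M` generates the sequence `h`: for every valid representation `w` (leading zeros allowed) of
every number `i = V 0 w` the state reached is defined and its output is `h i` -/
def Generates {k : ℕ} (M : DFAO k) (h : ℕ → ℕ) : Prop :=
  ∀ w : List Bool, Valid w → ∃ q, M.run M.q0 w = some q ∧ M.out q = h (V 0 w)

open Classical in
/-- residual of a word -/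
noncomputable def R (h : ℕ → ℕ) (w : List Bool) : List Bool → Option ℕ :=
  fun x => if Valid (w ++ x) then some (h (V 0 (w ++ x))) else none

/-- the residuals of the valid words -/
def Q (h : ℕ → ℕ) : Type := {f : List Bool → Option ℕ // ∃ w, Valid w ∧ R h w = f}

lemma R_snoc (h : ℕ → ℕ) (w : List Bool) (a : Bool) :
    R h (w ++ [a]) = fun x => R h w (a :: x) := by
  funext x
  simp [R]

open Classical in
/-- **Myhill–Nerode**: an automaton whose states are the residuals. -/
theorem exists_dfao (h : ℕ → ℕ) [Finite (Q h)] :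
    ∃ M : DFAO (Nat.card (Q h)), Generates M h := by
  obtain ⟨e⟩ : Nonempty (Q h ≃ Fin (Nat.card (Q h))) := ⟨Finite.equivFin _⟩
  let δ' : Q h → Bool → Option (Q h) := fun q a =>
    if hh : ∃ w, Valid w ∧ R h w = (fun x => q.1 (a :: x)) then some ⟨_, hh⟩ else none
  let M : DFAO (Nat.card (Q h)) :=
    { δ := fun i a => (δ' (e.symm i) a).map e
      q0 := e ⟨R h [], [], valid_nil, rfl⟩
      out := fun i => ((e.symm i).1 []).getD 0 }
  have hrun : ∀ (x w : List Bool) (hw : Valid w) (hx : Valid (w ++ x)),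
      M.run (e ⟨R h w, w, hw, rfl⟩) x = some (e ⟨R h (w ++ x), w ++ x, hx, rfl⟩) := by
    intro x
    induction x with
    | nil => intro w hw hx; simp [DFAO.run]
    | cons a x ih =>
      intro w hw hx
      have hx2 : Valid ((w ++ [a]) ++ x) := by simpa using hx
      have hwa : Valid (w ++ [a]) := valid_left hx2
      have h1 : δ' ⟨R h w, w, hw, rfl⟩ a = some ⟨R h (w ++ [a]), w ++ [a], hwa, rfl⟩ := by
        have hh : ∃ w', Valid w' ∧ R h w' = (fun x => R h w (a :: x)) := ⟨w ++ [a], hwa, R_snoc h w a⟩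
        change (if hh : ∃ w', Valid w' ∧ R h w' = (fun x => R h w (a :: x)) then
          some (⟨_, hh⟩ : Q h) else none) = _
        rw [dif_pos hh]
        congr 1
        exact Subtype.ext (R_snoc h w a).symm
      rw [DFAO.run]
      change ((δ' (e.symm (e ⟨R h w, w, hw, rfl⟩)) a).map e).bind _ = _
      rw [Equiv.symm_apply_apply, h1]
      simp only [Option.map_some, Option.bind_some]
      rw [ih (w ++ [a]) hwa hx2]
      congr 2
      exact Subtype.ext (by simp)
  refine ⟨M, fun w hw => ⟨_, hrun w [] valid_nil (by simpa using hw), ?_⟩⟩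
  change (((e.symm (e ⟨R h ([] ++ w), _⟩)).1 []).getD 0) = _
  rw [Equiv.symm_apply_apply]
  simp [R, hw]

/-- the sequence of the digit sums of `i + F_m` modulo two -/
def hm (m : ℕ) (i : ℕ) : ℕ := par (i + Nat.fib m)

lemma R_eq {m : ℕ} (h2 : 2 ≤ m) {u u' s : List Bool} (hs : m ≤ s.length) (hv : Valid (u ++ s))
    (hv' : Valid (u' ++ s)) (h3 : last u = last u') (h4 : par (V 0 u) = par (V 0 u'))
    (h5 : kap u = kap u') : R (hm m) (u ++ s) = R (hm m) (u' ++ s) := by
  funext x
  unfold R
  have hu := valid_left hv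
  have hu' := valid_left hv'
  have e1 : Valid (u ++ s ++ x) ↔ Valid (u' ++ s ++ x) := by
    rw [List.append_assoc, List.append_assoc, valid_append (u := u), valid_append (u := u')]
    change Valid u ∧ Valid (s ++ x) ∧ ¬ (last u = true ∧ _) ↔
      Valid u' ∧ Valid (s ++ x) ∧ ¬ (last u' = true ∧ _)
    rw [h3]
    simp [hu, hu']
  by_cases h6 : Valid (u ++ s ++ x)
  · rw [if_pos h6, if_pos (e1.1 h6)]
    congr 1
    unfold hm
    rw [List.append_assoc, List.append_assoc]
    have h7 : Valid (u ++ (s ++ x)) := by rw [← List.append_assoc]; exact h6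
    obtain ⟨e, N, hN⟩ := core (z := s ++ x) h2 (by simp; omega) (last u) (valid_right h7) (by
      intro hl
      have := (valid_append.1 h7).2.2
      change ¬ (last u = true ∧ _) at this
      rw [hl] at this
      simpa using this)
    rw [hN u hu rfl, hN u' hu' h3.symm, h4, h5]
  · rw [if_neg h6, if_neg (fun h => h6 (e1.2 h))]

lemma V_zeros (k s : ℕ) : V s (List.replicate k false) = 0 := by
  induction k with
  | zero => rfl
  | succ k ih => rw [List.replicate_succ, V, ih]; simp

lemma valid_zeros (k : ℕ) (w : List Bool) : Valid (List.replicate k false ++ w) ↔ Valid w := by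
  induction k with
  | zero => simp
  | succ k ih => rw [List.replicate_succ, List.cons_append, valid_cons_false, ih]

lemma R_zeros (h : ℕ → ℕ) (k : ℕ) (w : List Bool) : R h (List.replicate k false ++ w) = R h w := by
  funext x
  unfold R
  have e1 : Valid (List.replicate k false ++ w ++ x) ↔ Valid (w ++ x) := by
    rw [List.append_assoc, valid_zeros]
  have e2 : V 0 (List.replicate k false ++ w ++ x) = V 0 (w ++ x) := by
    rw [List.append_assoc, V_append, V_zeros, zero_add]
  rw [e2]
  by_cases h6 : Valid (w ++ x)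
  · rw [if_pos h6, if_pos (e1.2 h6)]
  · rw [if_neg h6, if_neg (fun h => h6 (e1.1 h))]

lemma V_blocks (s : ℕ) : V s B2 = V s B1 + (Nat.fib (8 + s) + Nat.fib (6 + s)) := by
  refine shift_all (fun s => V s B1 + (Nat.fib (8 + s) + Nat.fib (6 + s))) (fun s => ?_)
    (by decide) (by decide) s
  change V (s + 2) B1 + (Nat.fib (8 + s + 2) + Nat.fib (6 + s + 2))
    = V (s + 1) B1 + (Nat.fib (8 + s + 1) + Nat.fib (6 + s + 1))
      + (V s B1 + (Nat.fib (8 + s) + Nat.fib (6 + s)))
  rw [V_rec, Nat.fib_add_two, Nat.fib_add_two]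
  ring

/-- normal forms -/
lemma normal (m q : ℕ) (w : List Bool) (hw : Valid w) :
    ∃ u s : List Bool, Valid (u ++ s) ∧ s ∈ A q ∧ s.length = 15 * q ∧
      R (hm m) (u ++ s) = R (hm m) w := by
  classical
  obtain ⟨n, hn⟩ : ∃ n, n = 15 * q := ⟨_, rfl⟩
  obtain ⟨w', hw'⟩ : ∃ w', w' = List.replicate n false ++ w := ⟨_, rfl⟩
  have h1 : Valid w' := by rw [hw', valid_zeros]; exact hw
  have h2 : R (hm m) w' = R (hm m) w := by rw [hw', R_zeros]
  have h3 : n ≤ w'.length := by rw [hw']; simp
  obtain ⟨u, hu⟩ : ∃ u, u = w'.take (w'.length - n) := ⟨_, rfl⟩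
  have hex : ∃ N, ∃ s : List Bool, s.length = n ∧ Valid (u ++ s) ∧ R (hm m) (u ++ s) = R (hm m) w ∧
      V 0 s = N := by
    refine ⟨_, w'.drop (w'.length - n), by simp; omega, ?_, ?_, rfl⟩
    · rw [hu, List.take_append_drop]; exact h1
    · rw [hu, List.take_append_drop]; exact h2
  obtain ⟨s, s1, s2, s3, s4⟩ := Nat.find_spec hex
  refine ⟨u, s, s2, mem_A q s (valid_right s2) (by omega) ?_, by omega, s3⟩
  rintro ⟨a, b, hab⟩
  have hlt : V 0 (a ++ B1 ++ b) < Nat.find hex := by
    rw [← s4, ← hab, V_append, V_append, V_append, V_append, zero_add]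
    have l1 : B1.length = 15 := rfl
    have l2 : B2.length = 15 := rfl
    rw [l1, l2, V_blocks b.length]
    have : 0 < Nat.fib (8 + b.length) := Nat.fib_pos.2 (by omega)
    omega
  refine Nat.find_min hex hlt ⟨a ++ B1 ++ b, ?_, ?_, ?_, rfl⟩
  · rw [← s1, ← hab]
    have l1 : B1.length = 15 := rfl
    have l2 : B2.length = 15 := rfl
    simp [l1, l2]
  · have h4 : Valid (u ++ (a ++ B2 ++ b)) := by rw [hab]; exact s2
    have h5 : Valid ((u ++ a) ++ (B2 ++ b)) := by simpa using h4
    have h6 := valid_left h5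
    have h7 := valid_right (valid_right h5)
    have h8 := valid_mid (y := B1) h6 (by decide) h7 (by decide) (by decide) (by decide)
    simpa using h8
  · rw [← s3, ← hab]
    funext x
    unfold R
    have key : ∀ B : List Bool, Valid B → B.headD false = false → B.getLastD false = false →
        B ≠ [] → (Valid (u ++ (a ++ B ++ b) ++ x) ↔ Valid (u ++ a) ∧ Valid (b ++ x)) := by
      intro B c1 c2 c3 c4
      have e : u ++ (a ++ B ++ b) ++ x = (u ++ a) ++ B ++ (b ++ x) := by simp
      rw [e]
      constructor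
      · intro h
        exact ⟨valid_left (valid_left h), valid_right h⟩
      · rintro ⟨d1, d2⟩
        exact valid_mid d1 c1 d2 c2 c3 c4
    have k1 := key B1 (by decide) (by decide) (by decide) (by decide)
    have k2 := key B2 (by decide) (by decide) (by decide) (by decide)
    by_cases h6 : Valid (u ++ a) ∧ Valid (b ++ x)
    · rw [if_pos (k1.2 h6), if_pos (k2.2 h6)]
      congr 1
      have e1 : u ++ (a ++ B1 ++ b) ++ x = (u ++ a) ++ B1 ++ (b ++ x) := by simp
      have e2 : u ++ (a ++ B2 ++ b) ++ x = (u ++ a) ++ B2 ++ (b ++ x) := by simp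
      unfold hm
      rw [e1, e2, inter h6.1 h6.2 m]
    · rw [if_neg (fun h => h6 (k1.1 h)), if_neg (fun h => h6 (k2.1 h))]

lemma par_lt (n : ℕ) : par n < 2 := Nat.mod_lt _ (by norm_num)

lemma kap_lt (u : List Bool) : kap u < 2 := by
  unfold kap
  cases last u
  · exact par_lt _
  · exact par_lt _

/-- keys -/
abbrev Key (q : ℕ) : Type := Bool × Fin 2 × Fin 2 × ((A q).toFinset : Finset (List Bool))

open Classical in
lemma exists_key (q : ℕ) (hq : 1 ≤ q) : ∃ f : Q (hm (15 * q)) → Key q, Function.Injective f := by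
  have h1 : ∀ g : Q (hm (15 * q)), ∃ us : List Bool × List Bool, Valid (us.1 ++ us.2) ∧
      us.2 ∈ A q ∧ us.2.length = 15 * q ∧ R (hm (15 * q)) (us.1 ++ us.2) = g.1 := by
    rintro ⟨g, w, hw, rfl⟩
    obtain ⟨u, s, h1, h2, h3, h4⟩ := normal (15 * q) q w hw
    exact ⟨(u, s), h1, h2, h3, h4⟩
  choose us h2 h3 h4 h5 using h1
  refine ⟨fun g => (last (us g).1, ⟨par (V 0 (us g).1), par_lt _⟩, ⟨kap (us g).1, kap_lt _⟩,
    ⟨(us g).2, by rw [List.mem_toFinset]; exact h3 g⟩), fun g g' hgg => ?_⟩
  simp only [Prod.mk.injEq, Fin.mk.injEq, Subtype.mk.injEq] at hgg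
  obtain ⟨k1, k2, k3, k4⟩ := hgg
  apply Subtype.ext
  rw [← h5 g, ← h5 g']
  have h6 := h2 g'
  rw [← k4] at h6 ⊢
  exact R_eq (by omega) (by rw [h4 g]) (h2 g) h6 k1 k2 k3

theorem states_le (q : ℕ) (hq : 1 ≤ q) : ∃ (k : ℕ) (M : DFAO k),
    Generates M (fun i => par (i + Nat.fib (15 * q))) ∧
      (k : ℝ) ≤ 8 * ((goldenRatio ^ 15 - 1) ^ q * goldenRatio) := by
  obtain ⟨f, hf⟩ := exists_key q hq
  have hfin : Finite (Q (hm (15 * q))) := Finite.of_injective f hf
  obtain ⟨M, hM⟩ := exists_dfao (hm (15 * q))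
  refine ⟨_, M, hM, ?_⟩
  have h1 := Nat.card_le_card_of_injective f hf
  have h2 : Nat.card (Key q) = 8 * (A q).toFinset.card := by
    rw [Nat.card_eq_fintype_card, Fintype.card_prod, Fintype.card_prod, Fintype.card_prod,
      Fintype.card_bool, Fintype.card_fin, Fintype.card_coe]
    ring
  have h3 : (A q).toFinset.card ≤ (A q).length := List.toFinset_card_le _
  have h4 : Nat.card (Q (hm (15 * q))) ≤ 8 * (A q).length := by
    rw [h2] at h1
    omega
  have h5 : (Nat.card (Q (hm (15 * q))) : ℝ) ≤ 8 * ((A q).length : ℝ) := by exact_mod_cast h4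
  linarith [length_A q]

end Pool.Agent.Q208.FTM
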