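import Mathlib

/-!
# Fibonacci representations as words, and the sum of digits of `i + F_m`
-/

set_option autoImplicit false

open Real

namespace Pool.Agent.Q208.FTM

/-- no two consecutive digits are both one -/
def Valid (w : List Bool) : Prop := w.IsChain (fun a b => ¬ (a = true ∧ b = true))

instance (w : List Bool) : Decidable (Valid w) := by unfold Valid; infer_instance

/-- value of a word, most significant digit first, the lowest digit having the weight `F_(s+2)` -/
def V (s : ℕ) : List Bool → ℕ
  | [] => 0
  | a :: w => (if a then Nat.fib (w.length + 2 + s) else 0) + V s w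

/-- parity of the number of ones in the Fibonacci representation -/
def par (n : ℕ) : ℕ := (Nat.zeckendorf n).length % 2

/-- number of ones -/
def ones (w : List Bool) : ℕ := w.count true

@[simp] lemma ones_nil : ones [] = 0 := rfl
@[simp] lemma ones_false (w : List Bool) : ones (false :: w) = ones w := by simp [ones]
@[simp] lemma ones_true (w : List Bool) : ones (true :: w) = ones w + 1 := by simp [ones]
@[simp] lemma ones_append (u v : List Bool) : ones (u ++ v) = ones u + ones v := by
  simp [ones, List.count_append]

lemma valid_nil : Valid [] := by simp [Valid]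

lemma valid_cons_false {w : List Bool} : Valid (false :: w) ↔ Valid w := by
  simp [Valid, List.isChain_cons]

lemma valid_cons {a : Bool} {w : List Bool} (h : Valid (a :: w)) : Valid w := by
  unfold Valid at *
  rw [List.isChain_cons] at h
  exact h.2

lemma valid_tt {w : List Bool} (h : Valid w) : Valid (true :: false :: w) := by
  have h1 := valid_cons_false.2 h
  unfold Valid at *
  rw [List.isChain_cons]
  exact ⟨by simp, h1⟩

lemma valid_append {u v : List Bool} : Valid (u ++ v) ↔
    Valid u ∧ Valid v ∧ ¬ (u.getLastD false = true ∧ v.headD false = true) := by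
  unfold Valid
  rw [List.isChain_append]
  refine and_congr_right fun _ => and_congr_right fun _ => ?_
  rcases List.eq_nil_or_concat u with rfl | ⟨u', a, rfl⟩
  · simp
  · rcases v with _ | ⟨b, v'⟩
    · simp
    · simp

lemma valid_left {u v : List Bool} (h : Valid (u ++ v)) : Valid u := (valid_append.1 h).1
lemma valid_right {u v : List Bool} (h : Valid (u ++ v)) : Valid v := (valid_append.1 h).2.1

lemma valid_append_false {p y : List Bool} : Valid (p ++ false :: y) ↔ Valid p ∧ Valid y := by
  rw [valid_append, valid_cons_false]
  simp

lemma valid_false_append {p y : List Bool} (hp : Valid p) (hl : p.getLastD false = false)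
    (hy : Valid y) : Valid (p ++ y) := by
  rw [valid_append]
  exact ⟨hp, hy, by rw [hl]; simp⟩

lemma V_append (s : ℕ) (u v : List Bool) : V s (u ++ v) = V (s + v.length) u + V s v := by
  induction u with
  | nil => simp [V]
  | cons a u ih =>
    rw [List.cons_append, V, V, ih, List.length_append]
    have e : u.length + v.length + 2 + s = u.length + 2 + (s + v.length) := by ring
    rw [e]
    ring

lemma V_rec (s : ℕ) (w : List Bool) : V (s + 2) w = V (s + 1) w + V s w := by
  induction w with
  | nil => rfl
  | cons a w ih =>
    rw [V, V, V, ih]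
    have e : w.length + 2 + (s + 2) = (w.length + 2 + s) + 2 := by ring
    have e2 : w.length + 2 + (s + 1) = (w.length + 2 + s) + 1 := by ring
    rw [e, e2, Nat.fib_add_two]
    split <;> ring

lemma V_lt {w : List Bool} (h : Valid w) : V 0 w < Nat.fib (w.length + 2) := by
  match w, h with
  | [], _ => simp [V]
  | [a], _ => cases a <;> simp [V, Nat.fib]
  | a :: b :: w, h =>
    have h1 := V_lt (valid_cons h)
    rw [V]
    cases a with
    | false =>
      simp only [Bool.false_eq_true, if_false, zero_add]
      refine h1.trans_le (Nat.fib_mono ?_)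
      simp
    | true =>
      have hb : b = false := by
        unfold Valid at h
        rw [List.isChain_cons] at h
        have := h.1 b (by simp)
        simpa using this
      subst hb
      have h2 := V_lt (valid_cons (valid_cons h))
      rw [V]
      simp only [if_true, Bool.false_eq_true, if_false, zero_add, List.length_cons]
      have e : w.length + 1 + 1 + 2 = (w.length + 2) + 2 := by ring
      rw [e, Nat.fib_add_two (n := w.length + 2)]
      have e3 : w.length + 1 + 2 + 0 = w.length + 2 + 1 := by ring
      rw [e3]
      omega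

lemma exists_word : ∀ (L n : ℕ), n < Nat.fib (L + 2) → ∃ w : List Bool, Valid w ∧ w.length = L ∧
    V 0 w = n
  | 0, n, h => ⟨[], valid_nil, rfl, by simp [Nat.fib] at h; simp [V, h]⟩
  | 1, n, h => by
    have h3 : Nat.fib 3 = 2 := rfl
    rw [show 1 + 2 = 3 from rfl, h3] at h
    rcases Nat.lt_or_ge n 1 with h0 | h0
    · exact ⟨[false], by decide, rfl, by simp [V]; omega⟩
    · exact ⟨[true], by decide, rfl, by simp [V, Nat.fib]; omega⟩
  | L + 2, n, h => by
    rcases Nat.lt_or_ge n (Nat.fib (L + 3)) with h0 | h0
    · obtain ⟨w, hw, hl, hv⟩ := exists_word (L + 1) n h0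
      exact ⟨false :: w, valid_cons_false.2 hw, by simp [hl], by simp [V, hv]⟩
    · have h1 : n - Nat.fib (L + 3) < Nat.fib (L + 2) := by
        have : Nat.fib (L + 2 + 2) = Nat.fib (L + 2) + Nat.fib (L + 2 + 1) := Nat.fib_add_two
        have e : L + 2 + 1 = L + 3 := rfl
        rw [e] at this
        omega
      obtain ⟨w, hw, hl, hv⟩ := exists_word L _ h1
      refine ⟨true :: false :: w, valid_tt hw, by simp [hl], ?_⟩
      simp only [V, if_true, Bool.false_eq_true, if_false, zero_add, List.length_cons, hl, hv]
      have e : L + 1 + 2 + 0 = L + 3 := by ring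
      rw [e]
      omega

/-- indices of the ones -/
def idx : List Bool → List ℕ
  | [] => []
  | a :: w => if a then (w.length + 2) :: idx w else idx w

lemma idx_length (w : List Bool) : (idx w).length = ones w := by
  induction w with
  | nil => rfl
  | cons a w ih => cases a <;> simp [idx, ih]

lemma idx_sum (w : List Bool) : ((idx w).map Nat.fib).sum = V 0 w := by
  induction w with
  | nil => rfl
  | cons a w ih => cases a <;> simp [idx, V, ih]

lemma idx_rep (w : List Bool) (h : Valid w) :
    (idx w ++ [0]).IsChain (fun a b => b + 2 ≤ a) ∧ (∀ j ∈ (idx w ++ [0]).head?, j ≤ w.length + 1) ∧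
      (w.headD false = false → ∀ j ∈ (idx w ++ [0]).head?, j ≤ w.length) := by
  induction w with
  | nil => simp [idx]
  | cons a w ih =>
    obtain ⟨h1, h2, h3⟩ := ih (valid_cons h)
    cases a with
    | false =>
      simp only [idx, Bool.false_eq_true, if_false]
      refine ⟨h1, fun j hj => ?_, fun _ j hj => ?_⟩
      · have := h2 j hj
        simp only [List.length_cons]
        omega
      · have := h2 j hj
        simp only [List.length_cons]
        omega
    | true =>
      have hw : w.headD false = false := by
        unfold Valid at h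
        rw [List.isChain_cons] at h
        rcases w with _ | ⟨b, w⟩
        · rfl
        · have := h.1 b (by simp)
          simpa using this
      simp only [idx, if_true, List.cons_append]
      refine ⟨?_, ?_, by simp⟩
      · rw [List.isChain_cons]
        refine ⟨fun j hj => ?_, h1⟩
        have := h3 hw j hj
        omega
      · intro j hj
        simp only [List.head?_cons, Option.mem_def, Option.some.injEq] at hj
        simp only [List.length_cons]
        omega

lemma par_V {w : List Bool} (h : Valid w) : par (V 0 w) = ones w % 2 := by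
  unfold par
  rw [← idx_sum, Nat.zeckendorf_sum_fib (idx_rep w h).1, idx_length]

/-! ### conjugates -/

lemma V_snoc (s : ℕ) (w : List Bool) (a : Bool) :
    V s (w ++ [a]) = V (s + 1) w + (if a then Nat.fib (2 + s) else 0) := by
  rw [V_append]
  simp [V]

/-- the conjugate of a word -/
noncomputable def cj (w : List Bool) : ℝ := (V 1 w : ℝ) - goldenRatio * V 0 w

lemma psi : goldenConj = 1 - goldenRatio := Real.one_sub_goldenConj.symm

lemma phi_sq : goldenRatio * goldenRatio = goldenRatio + 1 := by
  rw [← sq]; exact Real.goldenRatio_sq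

lemma phi_gt : (1.618 : ℝ) < goldenRatio := by
  have h := phi_sq
  have h2 := Real.one_lt_goldenRatio
  nlinarith

lemma phi_lt : goldenRatio < (1.6181 : ℝ) := by
  have h := phi_sq
  have h2 := Real.one_lt_goldenRatio
  nlinarith

lemma cj_snoc (w : List Bool) (a : Bool) : cj (w ++ [a])
    = (1 - goldenRatio) * cj w + (if a then 2 - goldenRatio else 0) := by
  unfold cj
  rw [V_snoc, V_snoc]
  have h := V_rec 0 w
  simp only [zero_add] at h
  rw [show (1 : ℕ) + 1 = 2 from rfl, h]
  have h2 := phi_sq
  cases a
  · simp only [Bool.false_eq_true, if_false]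
    push_cast
    linear_combination (-(V 0 w : ℝ)) * h2
  · simp only [if_true, show Nat.fib (2 + 1) = 2 from rfl, show Nat.fib (2 + 0) = 1 from rfl]
    push_cast
    linear_combination (-(V 0 w : ℝ)) * h2

lemma cj_nil : cj [] = 0 := by simp [cj, V]

/-- lower bound `-φ⁻² = φ - 2`, upper bound `φ⁻¹ = φ - 1`, and `φ⁻³ = 2 φ - 3` for words ending in
zero -/
lemma cj_bound (w : List Bool) (h : Valid w) : goldenRatio - 2 < cj w ∧ cj w < goldenRatio - 1 ∧
    (w.getLastD false = false → cj w < 2 * goldenRatio - 3) := by
  have h1 := phi_gt
  have h2 := phi_lt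
  have h3 := phi_sq
  induction w using List.reverseRecOn with
  | nil => rw [cj_nil]; refine ⟨by linarith, by linarith, fun _ => by linarith⟩
  | append_singleton w a ih =>
    obtain ⟨h4, h5, h6⟩ := ih (valid_left h)
    rw [cj_snoc]
    cases a with
    | false =>
      simp only [Bool.false_eq_true, if_false, add_zero]
      refine ⟨by nlinarith, by nlinarith, fun _ => by nlinarith⟩
    | true =>
      have hl : w.getLastD false = false := by
        have := (valid_append.1 h).2.2
        simpa using this
      have h7 := h6 hl
      simp only [if_true]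
      refine ⟨by nlinarith, by nlinarith, fun hh => ?_⟩
      simp at hh

lemma shift_one {y : List Bool} (hy : Valid y) (n : ℕ)
    (h1 : goldenRatio - 2 < (n : ℝ) - goldenRatio * V 0 y)
    (h2 : (n : ℝ) - goldenRatio * V 0 y < goldenRatio - 1) : V 1 y = n := by
  obtain ⟨h3, h4, -⟩ := cj_bound y hy
  unfold cj at h3 h4
  have h5 : ((V 1 y : ℤ) : ℝ) - (n : ℤ) < 1 := by push_cast; linarith
  have h6 : ((n : ℤ) : ℝ) - (V 1 y : ℤ) < 1 := by push_cast; linarith
  have h7 : (V 1 y : ℤ) - n < 1 := by exact_mod_cast h5
  have h8 : (n : ℤ) - V 1 y < 1 := by exact_mod_cast h6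
  omega

lemma shift_all {y : List Bool} (a : ℕ → ℕ) (ha : ∀ s, a (s + 2) = a (s + 1) + a s)
    (h0 : V 0 y = a 0) (h1 : V 1 y = a 1) : ∀ s, V s y = a s := by
  intro s
  induction s using Nat.twoStepInduction with
  | zero => exact h0
  | one => exact h1
  | more n ih1 ih2 => rw [V_rec, ha, ih1, ih2]

/-- the conjugate of a shifted word -/
lemma cj_shift (w : List Bool) (s : ℕ) :
    (V (s + 1) w : ℝ) - goldenRatio * V s w = goldenConj ^ s * cj w := by
  induction s with
  | zero => simp [cj]
  | succ s ih =>
    have h := V_rec s w
    rw [show s + 1 + 1 = s + 2 from rfl, h, pow_succ', mul_assoc, ← ih, psi]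
    push_cast
    linear_combination (-(V s w : ℝ)) * phi_sq

/-- existence of a Fibonacci representation of a shifted word plus one more unit, provided that the
conjugates are small enough; the representation is compatible with all shifts. -/
lemma exists_rep (w : List Bool) (k j : ℕ)
    (h1 : goldenRatio - 2 < goldenConj ^ k * cj w + goldenConj ^ j)
    (h2 : goldenConj ^ k * cj w + goldenConj ^ j < goldenRatio - 1) :
    ∃ y : List Bool, Valid y ∧ ∀ s, V s y = V (s + k) w + Nat.fib (s + j) := by
  obtain ⟨L, hL⟩ : ∃ L, V k w + Nat.fib j < Nat.fib (L + 2) := by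
    refine ⟨V k w + Nat.fib j + 5, ?_⟩
    exact (by omega : V k w + Nat.fib j < V k w + Nat.fib j + 5 + 2).trans_le
      (Nat.le_fib_self (by omega))
  obtain ⟨y, hy, -, hv⟩ := exists_word L _ hL
  refine ⟨y, hy, ?_⟩
  have hr : ∀ s, V (s + 2 + k) w + Nat.fib (s + 2 + j)
      = (V (s + 1 + k) w + Nat.fib (s + 1 + j)) + (V (s + k) w + Nat.fib (s + j)) := by
    intro s
    have e1 : s + 2 + k = s + k + 2 := by ring
    have e2 : s + 2 + j = s + j + 2 := by ring
    have e3 : s + 1 + k = s + k + 1 := by ring
    have e4 : s + 1 + j = s + j + 1 := by ring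
    rw [e1, e2, e3, e4, V_rec, Nat.fib_add_two]
    ring
  refine shift_all (fun s => V (s + k) w + Nat.fib (s + j)) hr (by simpa using hv) ?_
  refine shift_one hy _ ?_ ?_ <;>
  · rw [hv]
    have h3 := cj_shift w k
    have h4 := Real.fib_succ_sub_goldenRatio_mul_fib j
    have e : (((V (1 + k) w + Nat.fib (1 + j) : ℕ)) : ℝ) - goldenRatio * ((V k w + Nat.fib j : ℕ) : ℝ)
        = goldenConj ^ k * cj w + goldenConj ^ j := by
      rw [← h3, ← h4, show 1 + k = k + 1 from by ring, show 1 + j = j + 1 from by ring]
      push_cast
      ring
    rw [e]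
    assumption

end Pool.Agent.Q208.FTM
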