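import Pool.Agent.Q208.FTM.Base

/-!
# Two blocks that cannot be distinguished, and truncation
-/

set_option autoImplicit false

open Real

namespace Pool.Agent.Q208.FTM

/-- words from 0/1 lists -/
def wd (l : List ℕ) : List Bool := l.map (fun i => i == 1)

/-- the first block -/
def B1 : List Bool := wd [0,0,0,0,1,0,0,1,0,1,0,1,0,0,0]
/-- the second block -/
def B2 : List Bool := wd [0,0,0,0,1,0,1,0,1,0,0,1,0,0,0]

/-- `B1` plus a unit -/
def T1 : ℕ → List Bool
  | 3 => wd [0,0,0,0,1,0,0,1,0,1,0,1,0,1,0]
  | 4 => wd [0,0,0,0,1,0,1,0,0,0,0,0,0,0,0]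
  | 5 => wd [0,0,0,0,1,0,1,0,0,0,0,0,0,1,0]
  | 6 => wd [0,0,0,0,1,0,1,0,0,0,0,1,0,0,0]
  | 7 => wd [0,0,0,0,1,0,1,0,0,0,1,0,0,1,0]
  | 8 => wd [0,0,0,0,1,0,1,0,0,1,0,1,0,0,0]
  | 9 => wd [0,0,0,0,1,0,1,0,1,0,1,0,0,1,0]
  | 10 => wd [0,0,0,1,0,0,0,0,0,1,0,1,0,0,0]
  | 11 => wd [0,0,0,1,0,0,0,1,0,1,0,1,0,0,0]
  | 12 => wd [0,0,0,1,0,1,0,0,0,1,0,1,0,0,0]
  | 13 => wd [0,0,1,0,0,0,0,1,0,1,0,1,0,0,0]
  | 14 => wd [0,0,1,0,1,0,0,1,0,1,0,1,0,0,0]
  | _ => wd [0,1,0,0,1,0,0,1,0,1,0,1,0,0,0]

/-- `B2` plus a unit -/
def T2 : ℕ → List Bool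
  | 3 => wd [0,0,0,0,1,0,1,0,1,0,0,1,0,1,0]
  | 4 => wd [0,0,0,0,1,0,1,0,1,0,1,0,0,0,0]
  | 5 => wd [0,0,0,0,1,0,1,0,1,0,1,0,0,1,0]
  | 6 => wd [0,0,0,1,0,0,0,0,0,0,0,0,0,0,0]
  | 7 => wd [0,0,0,1,0,0,0,0,0,0,0,1,0,0,0]
  | 8 => wd [0,0,0,1,0,0,0,0,0,1,0,0,0,0,0]
  | 9 => wd [0,0,0,1,0,0,0,0,1,0,0,1,0,0,0]
  | 10 => wd [0,0,0,1,0,0,0,1,0,1,0,0,0,0,0]
  | 11 => wd [0,0,0,1,0,0,1,0,1,0,0,1,0,0,0]
  | 12 => wd [0,0,0,1,0,1,0,1,0,1,0,0,0,0,0]
  | 13 => wd [0,0,1,0,0,0,1,0,1,0,0,1,0,0,0]
  | 14 => wd [0,0,1,0,1,0,1,0,1,0,0,1,0,0,0]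
  | _ => wd [0,1,0,0,1,0,1,0,1,0,0,1,0,0,0]

lemma table (d : ℕ) (h1 : 3 ≤ d) (h2 : d ≤ 15) :
    (Valid (T1 d) ∧ (T1 d).length = 15 ∧ (T1 d).headD false = false ∧ (T1 d).getLastD false = false ∧
      V 0 (T1 d) = V 0 B1 + Nat.fib d ∧ V 1 (T1 d) = V 1 B1 + Nat.fib (d + 1)) ∧
    (Valid (T2 d) ∧ (T2 d).length = 15 ∧ (T2 d).headD false = false ∧ (T2 d).getLastD false = false ∧
      V 0 (T2 d) = V 0 B2 + Nat.fib d ∧ V 1 (T2 d) = V 1 B2 + Nat.fib (d + 1)) ∧
    ones (T1 d) % 2 = ones (T2 d) % 2 := by
  interval_cases d <;> decide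

lemma shift_add {y b : List Bool} {d : ℕ} (h0 : V 0 y = V 0 b + Nat.fib d)
    (h1 : V 1 y = V 1 b + Nat.fib (d + 1)) (s : ℕ) : V s y = V s b + Nat.fib (d + s) := by
  refine shift_all (fun s => V s b + Nat.fib (d + s)) (fun s => ?_) (by simpa using h0) h1 s
  change V (s + 2) b + Nat.fib (d + s + 2) = V (s + 1) b + Nat.fib (d + s + 1) + (V s b + Nat.fib (d + s))
  rw [V_rec, Nat.fib_add_two]
  ring

lemma valid_mid {u y v : List Bool} (hu : Valid u) (hy : Valid y) (hv : Valid v)
    (h1 : y.headD false = false) (h2 : y.getLastD false = false) (hne : y ≠ []) :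
    Valid (u ++ y ++ v) := by
  rw [valid_append, valid_append]
  refine ⟨⟨hu, hy, by rw [h1]; simp⟩, hv, ?_⟩
  have e : (u ++ y).getLastD false = y.getLastD false := by
    rcases List.eq_nil_or_concat y with rfl | ⟨y', a, rfl⟩
    · exact absurd rfl hne
    · rw [List.concat_eq_append, ← List.append_assoc]
      simp
  rw [e, h2]
  simp

lemma pow_small {j : ℕ} (hj : 4 ≤ j) : |goldenConj ^ j| ≤ (0.146 : ℝ) := by
  rw [abs_pow]
  have h1 : |goldenConj| ≤ (0.6181 : ℝ) := by
    rw [psi, abs_le]
    constructor <;> linarith [phi_gt, phi_lt]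
  calc |goldenConj| ^ j ≤ |goldenConj| ^ 4 :=
        pow_le_pow_of_le_one (abs_nonneg _) (by linarith) hj
    _ ≤ (0.6181 : ℝ) ^ 4 := pow_le_pow_left₀ (abs_nonneg _) h1 4
    _ ≤ 0.146 := by norm_num

/-- the parity of the digit sum of `i + F_m` for a number with the block `C ++ [0,0]`, when the unit
is added in the low part -/
lemma low {p v : List Bool} (hp : Valid p) (hl : p.getLastD false = false) (hv : Valid v) {m : ℕ}
    (hm : m ≤ v.length + 2) : ∃ N, (par (V 0 (p ++ ([false, false] ++ v)) + Nat.fib m)
      = (ones p + N) % 2) ∧ N = par (V 0 v + Nat.fib m) := by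
  have h1 : V 0 v + Nat.fib m < Nat.fib (v.length + 2 + 2) := by
    have h2 := V_lt hv
    have h3 : Nat.fib m ≤ Nat.fib (v.length + 2) := Nat.fib_mono hm
    have h4 : Nat.fib (v.length + 2 + 2) = Nat.fib (v.length + 2) + Nat.fib (v.length + 2 + 1) :=
      Nat.fib_add_two
    have h5 : Nat.fib (v.length + 2) ≤ Nat.fib (v.length + 2 + 1) := Nat.fib_mono (by omega)
    omega
  obtain ⟨y, hy, hly, hvy⟩ := exists_word _ _ h1
  refine ⟨_, ?_, rfl⟩
  have e1 : V 0 (p ++ ([false, false] ++ v)) + Nat.fib m = V 0 (p ++ y) := by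
    rw [V_append, V_append, V_append, hly]
    simp only [List.length_append, List.length_cons, List.length_nil, V, Bool.false_eq_true, if_false,
      zero_add]
    rw [hvy, Nat.add_comm 2 v.length]
    ring
  rw [e1, par_V (valid_false_append hp hl hy), ones_append, ← hvy, par_V hy]
  omega

/-- **The blocks `B1` and `B2` cannot be distinguished.** -/
lemma inter {u v : List Bool} (hu : Valid u) (hv : Valid v) (m : ℕ) :
    par (V 0 (u ++ B1 ++ v) + Nat.fib m) = par (V 0 (u ++ B2 ++ v) + Nat.fib m) := by
  rcases Nat.lt_or_ge m (v.length + 3) with h1 | h1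
  · -- low
    have e1 : u ++ B1 ++ v = (u ++ wd [0,0,0,0,1,0,0,1,0,1,0,1,0]) ++ ([false, false] ++ v) := by
      simp [B1, wd]
    have e2 : u ++ B2 ++ v = (u ++ wd [0,0,0,0,1,0,1,0,1,0,0,1,0]) ++ ([false, false] ++ v) := by
      simp [B2, wd]
    have v1 : Valid (u ++ wd [0,0,0,0,1,0,0,1,0,1,0,1,0]) := by
      rw [valid_append]; exact ⟨hu, by decide, by simp [wd]⟩
    have v2 : Valid (u ++ wd [0,0,0,0,1,0,1,0,1,0,0,1,0]) := by
      rw [valid_append]; exact ⟨hu, by decide, by simp [wd]⟩
    obtain ⟨N, h2, h3⟩ := low v1 (by simp [wd]) hv (m := m) (by omega)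
    obtain ⟨N', h2', h3'⟩ := low v2 (by simp [wd]) hv (m := m) (by omega)
    rw [e1, e2, h2, h2', h3, h3', ones_append, ones_append]
    rfl
  · rcases Nat.lt_or_ge m (v.length + 16) with h2 | h2
    · obtain ⟨d, hd⟩ : ∃ d, m = d + v.length := ⟨m - v.length, by omega⟩
      obtain ⟨⟨a1, a2, a3, a4, a5, a6⟩, ⟨b1, b2, b3, b4, b5, b6⟩, hp⟩ :=
        table d (by omega) (by omega)
      have key : ∀ (B y : List Bool), B.length = 15 → Valid y → y.length = 15 →
          y.headD false = false → y.getLastD false = false → V 0 y = V 0 B + Nat.fib d →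
          V 1 y = V 1 B + Nat.fib (d + 1) →
          par (V 0 (u ++ B ++ v) + Nat.fib m) = (ones u + ones y + ones v) % 2 := by
        intro B y hB c1 c2 c3 c4 c5 c6
        have e1 : V 0 (u ++ B ++ v) + Nat.fib m = V 0 (u ++ y ++ v) := by
          rw [V_append, V_append, V_append, V_append, hB, c2, zero_add, shift_add c5 c6 v.length, hd]
          ring
        rw [e1, par_V (valid_mid hu c1 hv c3 c4 (by intro h; rw [h] at c2; simp at c2)), ones_append,
          ones_append]
      rw [key B1 (T1 d) rfl a1 a2 a3 a4 a5 a6, key B2 (T2 d) rfl b1 b2 b3 b4 b5 b6]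
      omega
    · -- high
      obtain ⟨j, hj⟩ : ∃ j, m = 12 + v.length + j := ⟨m - (12 + v.length), by omega⟩
      have hj4 : 4 ≤ j := by omega
      have hu' : Valid (u ++ [false]) := valid_append_false.2 ⟨hu, valid_nil⟩
      have hc := cj_bound _ hu'
      have hps := abs_le.1 (pow_small hj4)
      have q1 := phi_gt
      have q2 := phi_lt
      have q3 := phi_sq
      have e0 : goldenConj ^ 2 = 2 - goldenRatio := by
        rw [psi]; linear_combination q3
      obtain ⟨y, hy, hV⟩ := exists_rep (u ++ [false]) 2 j
        (by rw [e0]; nlinarith) (by rw [e0]; nlinarith)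
      have key : ∀ X : List Bool, X.length = 8 → Valid (false :: X ++ [false]) → 
          par (V 0 (u ++ ([false, false, false, false] ++ X ++ [false, false, false]) ++ v)
            + Nat.fib m) = (ones y + ones X + ones v) % 2 := by
        intro X hX hvX
        have e1 : V 0 (u ++ ([false, false, false, false] ++ X ++ [false, false, false]) ++ v)
            + Nat.fib m = V 0 (y ++ ((false :: X ++ [false]) ++ (false :: false :: v))) := by
          have e2 : u ++ ([false, false, false, false] ++ X ++ [false, false, false]) ++ v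
              = (u ++ [false]) ++ ([false, false] ++ ((false :: X ++ [false]) ++ (false :: false :: v))) := by
            simp
          rw [e2, V_append, V_append 0 y, V_append 0 [false, false]]
          have e3 : (([false, false] ++ ((false :: X ++ [false]) ++ (false :: false :: v)))).length
              = v.length + 14 := by simp [hX]; omega
          have e4 : ((false :: X ++ [false]) ++ (false :: false :: v)).length = v.length + 12 := by
            simp [hX]; omega
          rw [e3, e4, hV]
          simp only [V, Bool.false_eq_true, if_false, zero_add]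
          have e5 : v.length + 12 + 2 = v.length + 14 := by ring
          have e6 : m = v.length + 12 + j := by omega
          rw [e5, e6]
          ring
        have v1 : Valid (y ++ ((false :: X ++ [false]) ++ (false :: false :: v))) := by
          rw [List.cons_append, List.cons_append]
          rw [valid_append_false]
          refine ⟨hy, ?_⟩
          have v2 : Valid (X ++ [false]) := valid_cons hvX
          rw [valid_append_false]
          exact ⟨v2, valid_cons_false.2 hv⟩
        rw [e1, par_V v1]
        simp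
        omega
      have f1 : B1 = [false, false, false, false] ++ wd [1,0,0,1,0,1,0,1] ++ [false, false, false] := rfl
      have f2 : B2 = [false, false, false, false] ++ wd [1,0,1,0,1,0,0,1] ++ [false, false, false] := rfl
      rw [f1, f2, key _ rfl (by decide), key _ rfl (by decide)]
      rfl

/-- last digit -/
def last (u : List Bool) : Bool := u.getLastD false

/-- parity after adding one unit at the lowest place whose digit and whose lower neighbour vanish -/
def kap (u : List Bool) : ℕ := bif last u then par (V 0 (u ++ [false]) + 1) else par (V 0 u + 1)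

/-- adding a unit to a word which ends in zero -/
lemma exists_succ {w : List Bool} (hw : Valid w) (hl : last w = false) :
    ∃ q : List Bool, Valid q ∧ ones q % 2 = par (V 0 w + 1) ∧ ∀ s, V s q = V s w + Nat.fib (s + 2) := by
  have hc := cj_bound w hw
  have q1 := phi_gt
  have q2 := phi_lt
  have e0 : goldenConj ^ 2 = 2 - goldenRatio := by
    rw [psi]; linear_combination phi_sq
  have h3 := hc.2.2 hl
  obtain ⟨q, hq, hV⟩ := exists_rep w 0 2 (by rw [e0, pow_zero]; linarith [hc.1])
    (by rw [e0, pow_zero]; linarith)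
  refine ⟨q, hq, ?_, fun s => by simpa using hV s⟩
  have := hV 0
  simp only [zero_add] at this
  rw [← par_V hq, this]
  rfl

/-- the parity for a prefix `u` -/
lemma core {z : List Bool} {m : ℕ} (hm : 2 ≤ m) (hz : m ≤ z.length) (b : Bool) (hbz : Valid z)
    (hb : b = true → z.headD false = false) :
    ∃ (e : Bool) (N : ℕ), ∀ u : List Bool, Valid u → last u = b →
      par (V 0 (u ++ z) + Nat.fib m) = ((bif e then kap u else par (V 0 u)) + N) % 2 := by
  have hF : Nat.fib m ≤ Nat.fib z.length := Nat.fib_mono hz
  cases b with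
  | false =>
    have h1 : V 0 z + Nat.fib m < Nat.fib (z.length + 1 + 2) := by
      have h2 := V_lt hbz
      have h4 : Nat.fib (z.length + 1 + 2) = Nat.fib (z.length + 1) + Nat.fib (z.length + 1 + 1) :=
        Nat.fib_add_two
      have h5 : Nat.fib z.length ≤ Nat.fib (z.length + 1) := Nat.fib_mono (by omega)
      have e : z.length + 1 + 1 = z.length + 2 := rfl
      rw [e] at h4
      omega
    obtain ⟨y, hy, hly, hvy⟩ := exists_word _ _ h1
    rcases y with _ | ⟨y0, y'⟩
    · simp at hly
    · have hl' : y'.length = z.length := by simpa using hly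
      refine ⟨y0, ones y', fun u hu hlu => ?_⟩
      cases y0 with
      | false =>
        have hy' := valid_cons hy
        have e1 : V 0 (u ++ z) + Nat.fib m = V 0 (u ++ y') := by
          rw [V_append, V_append, hl']
          simp only [V, Bool.false_eq_true, if_false, zero_add] at hvy
          rw [hvy]
          ring
        rw [e1, par_V (valid_false_append hu hlu hy'), ones_append]
        simp only [cond_false]
        rw [par_V hu]
        omega
      | true =>
        obtain ⟨q, hq, hq1, hq2⟩ := exists_succ hu hlu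
        have hy' := valid_cons hy
        have hhead : y'.headD false = false := by
          have := hy
          unfold Valid at this
          rw [List.isChain_cons] at this
          rcases y' with _ | ⟨b, y''⟩
          · rfl
          · simpa using this.1 b (by simp)
        have hvq : Valid (q ++ y') := by
          rw [valid_append]; exact ⟨hq, hy', by rw [hhead]; simp⟩
        have e1 : V 0 (u ++ z) + Nat.fib m = V 0 (q ++ y') := by
          rw [V_append, V_append, hq2, hl']
          simp only [V, if_true, hl'] at hvy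
          have e2 : z.length + 2 + 0 = 0 + z.length + 2 := by ring
          rw [e2] at hvy
          omega
        rw [e1, par_V hvq, ones_append]
        simp only [cond_true, kap, hlu, cond_false]
        rw [← hq1]
        omega
  | true =>
    have hz0 := hb rfl
    rcases z with _ | ⟨z0, z'⟩
    · simp at hz
      omega
    · have hz00 : z0 = false := by simpa using hz0
      subst hz00
      have hvz : V 0 (false :: z') = V 0 z' := by simp [V]
      simp only [List.length_cons] at hz hF
      have h1 : V 0 (false :: z') + Nat.fib m < Nat.fib (z'.length + 1 + 2) := by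
        have h2 := V_lt (valid_cons_false.1 hbz)
        have h4 : Nat.fib (z'.length + 1 + 2) = Nat.fib (z'.length + 1) + Nat.fib (z'.length + 1 + 1) :=
          Nat.fib_add_two
        have e : z'.length + 1 + 1 = z'.length + 2 := rfl
        rw [e] at h4
        omega
      obtain ⟨y, hy, hly, hvy⟩ := exists_word _ _ h1
      rcases y with _ | ⟨y0, y'⟩
      · simp at hly
      · have hl' : y'.length = z'.length := by simpa using hly
        refine ⟨y0, ones y', fun u hu hlu => ?_⟩
        cases y0 with
        | false =>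
          have e1 : V 0 (u ++ false :: z') + Nat.fib m = V 0 (u ++ false :: y') := by
            rw [V_append, V_append]
            simp only [List.length_cons, hl', V, Bool.false_eq_true, if_false, zero_add] at hvy ⊢
            rw [hvy]
            ring
          rw [e1, par_V (valid_append_false.2 ⟨hu, valid_cons_false.1 hy⟩), ones_append]
          simp only [cond_false, ones_false]
          rw [par_V hu]
          omega
        | true =>
          have hu0 : Valid (u ++ [false]) := valid_append_false.2 ⟨hu, valid_nil⟩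
          obtain ⟨q, hq, hq1, hq2⟩ := exists_succ hu0 (by simp [last])
          have hy' := valid_cons hy
          have hhead : y'.headD false = false := by
            have := hy
            unfold Valid at this
            rw [List.isChain_cons] at this
            rcases y' with _ | ⟨b, y''⟩
            · rfl
            · simpa using this.1 b (by simp)
          have hvq : Valid (q ++ y') := by
            rw [valid_append]; exact ⟨hq, hy', by rw [hhead]; simp⟩
          have e0 : u ++ false :: z' = (u ++ [false]) ++ z' := by simp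
          have e1 : V 0 (u ++ false :: z') + Nat.fib m = V 0 (q ++ y') := by
            rw [e0, V_append 0 (u ++ [false]) z', V_append 0 q y', hq2, hl']
            rw [hvz] at hvy
            simp only [V, if_true, hl'] at hvy
            have e2 : z'.length + 2 + 0 = 0 + z'.length + 2 := by ring
            rw [e2] at hvy
            omega
          rw [e1, par_V hvq, ones_append]
          simp only [cond_true, kap, hlu]
          rw [← hq1]
          omega

end Pool.Agent.Q208.FTM
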