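import Pool.Agent.Q208.FTM.Blocks

/-!
# Counting the words without the second block
-/

set_option autoImplicit false

open Real

namespace Pool.Agent.Q208.FTM

/-- weight of a word -/
noncomputable def wt (w : List Bool) : ℝ := bif w.headD false then 1 else goldenRatio

/-- total weight -/
noncomputable def tot (L : List (List Bool)) : ℝ := (L.map wt).sum

/-- extensions by one digit in front -/
def ext1 (w : List Bool) : List (List Bool) :=
  bif w.headD false then [false :: w] else [false :: w, true :: w]

/-- extensions of all words of a list -/
def ext (L : List (List Bool)) : List (List Bool) := L.flatMap ext1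

/-- extensions by `k` digits -/
def E (k : ℕ) (w : List Bool) : List (List Bool) := ext^[k] [w]

/-- words of length `15 q` without aligned `B2` -/
def A : ℕ → List (List Bool)
  | 0 => [[]]
  | q + 1 => (A q).flatMap (fun w => (E 15 w).filter (fun z => decide (z ≠ B2 ++ w)))

lemma wt_pos (w : List Bool) : 1 ≤ wt w ∧ wt w ≤ goldenRatio := by
  unfold wt
  have := phi_gt
  cases w.headD false
  · simp only [cond_false]; constructor <;> linarith
  · simp only [cond_true]; constructor <;> linarith

lemma tot_nil : tot [] = 0 := rfl
lemma tot_cons (w : List Bool) (L : List (List Bool)) : tot (w :: L) = wt w + tot L := by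
  simp [tot]
lemma tot_append (L L' : List (List Bool)) : tot (L ++ L') = tot L + tot L' := by simp [tot]

lemma tot_ext1 (w : List Bool) : tot (ext1 w) = goldenRatio * wt w := by
  have h := phi_sq
  unfold ext1 wt
  cases w.headD false
  · simp only [cond_false, tot_cons, tot_nil]
    simp only [wt, List.headD_cons, cond_false, cond_true]
    linarith
  · simp only [cond_true, tot_cons, tot_nil]
    simp [wt]

lemma tot_ext (L : List (List Bool)) : tot (ext L) = goldenRatio * tot L := by
  induction L with
  | nil => simp [ext, tot]
  | cons w L ih =>
    have e : ext (w :: L) = ext1 w ++ ext L := by simp [ext]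
    rw [e, tot_append, ih, tot_ext1, tot_cons]
    ring

lemma tot_E (k : ℕ) (w : List Bool) : tot (E k w) = goldenRatio ^ k * wt w := by
  induction k with
  | zero => simp [E, tot]
  | succ k ih =>
    unfold E at *
    rw [Function.iterate_succ_apply', tot_ext, ih]
    ring

lemma mem_E {p w : List Bool} (h : Valid (p ++ w)) : p ++ w ∈ E p.length w := by
  induction p with
  | nil => simp [E]
  | cons a p ih =>
    have h1 := ih (valid_cons h)
    unfold E at *
    rw [List.length_cons, Function.iterate_succ_apply']
    refine List.mem_flatMap.2 ⟨p ++ w, h1, ?_⟩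
    unfold ext1
    cases hh : (p ++ w).headD false with
    | false => cases a <;> simp
    | true =>
      have ha : a = false := by
        unfold Valid at h
        rw [List.cons_append, List.isChain_cons] at h
        rcases hpw : p ++ w with _ | ⟨b, r⟩
        · rw [hpw] at hh; simp at hh
        · rw [hpw] at h hh
          have := h.1 b (by simp)
          simp at hh
          simpa [hh] using this
      simp [ha]

lemma ext1_valid {w : List Bool} (hw : Valid w) : ∀ z ∈ ext1 w, Valid z := by
  intro z hz
  unfold ext1 at hz
  cases hh : w.headD false with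
  | false =>
    rw [hh] at hz
    simp only [cond_false, List.mem_cons, List.not_mem_nil, or_false] at hz
    rcases hz with rfl | rfl
    · exact valid_cons_false.2 hw
    · unfold Valid at *
      rw [List.isChain_cons]
      refine ⟨fun b hb => ?_, hw⟩
      rcases w with _ | ⟨b', r⟩
      · simp at hb
      · simp at hb hh
        subst hb
        simp [hh]
  | true =>
    rw [hh] at hz
    simp only [cond_true, List.mem_cons, List.not_mem_nil, or_false] at hz
    rw [hz]
    exact valid_cons_false.2 hw

lemma E_valid (k : ℕ) {w : List Bool} (hw : Valid w) : ∀ z ∈ E k w, Valid z := by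
  induction k with
  | zero => simp [E, hw]
  | succ k ih =>
    intro z hz
    unfold E at *
    rw [Function.iterate_succ_apply'] at hz
    obtain ⟨y, hy, hz⟩ := List.mem_flatMap.1 hz
    exact ext1_valid (ih y hy) z hz

lemma A_valid (q : ℕ) : ∀ w ∈ A q, Valid w := by
  induction q with
  | zero => intro w hw; simp [A] at hw; rw [hw]; exact valid_nil
  | succ q ih =>
    intro z hz
    obtain ⟨y, hy, hz⟩ := List.mem_flatMap.1 hz
    exact E_valid 15 (ih y hy) z (List.mem_filter.1 hz).1

lemma tot_filter_le (L : List (List Bool)) (p : List Bool → Bool) : tot (L.filter p) ≤ tot L := by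
  induction L with
  | nil => simp
  | cons a L ih =>
    have := (wt_pos a).1
    rw [List.filter_cons]
    split
    · rw [tot_cons, tot_cons]; linarith
    · rw [tot_cons]; linarith

lemma tot_filter (L : List (List Bool)) (z0 : List Bool) (h : z0 ∈ L) :
    tot (L.filter (fun z => decide (z ≠ z0))) + wt z0 ≤ tot L := by
  induction L with
  | nil => simp at h
  | cons a L ih =>
    rw [List.filter_cons]
    by_cases ha : a = z0
    · subst ha
      simp only [ne_eq, not_true_eq_false, decide_false, Bool.false_eq_true, if_false]
      rw [tot_cons]
      linarith [tot_filter_le L (fun z => decide (z ≠ a))]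
    · have h1 : z0 ∈ L := by
        rcases List.mem_cons.1 h with h | h
        · exact absurd h.symm ha
        · exact h
      have h2 := ih h1
      simp only [ne_eq, ha, not_false_eq_true, decide_true, if_true]
      rw [tot_cons, tot_cons]
      simp only [ne_eq] at h2
      linarith

lemma tot_flatMap {L : List (List Bool)} {f : List Bool → List (List Bool)} {c : ℝ}
    (h : ∀ w ∈ L, tot (f w) ≤ c * wt w) : tot (L.flatMap f) ≤ c * tot L := by
  induction L with
  | nil => simp [tot]
  | cons a L ih =>
    rw [List.flatMap_cons, tot_append, tot_cons]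
    have h1 := h a (by simp)
    have h2 := ih (fun w hw => h w (by simp [hw]))
    linarith

lemma tot_A (q : ℕ) : tot (A q) ≤ (goldenRatio ^ 15 - 1) ^ q * goldenRatio := by
  have hp : 0 ≤ goldenRatio ^ 15 - 1 := by
    have : 1 ≤ goldenRatio ^ 15 := one_le_pow₀ (by linarith [phi_gt])
    linarith
  induction q with
  | zero => simp [A, tot, wt]
  | succ q ih =>
    have h1 : tot (A (q + 1)) ≤ (goldenRatio ^ 15 - 1) * tot (A q) := by
      refine tot_flatMap fun w hw => ?_
      have hv : Valid (B2 ++ w) := by
        rw [valid_append]
        exact ⟨by decide, A_valid q w hw, by simp [B2, wd]⟩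
      have h2 := tot_filter _ _ (mem_E hv)
      have h3 : B2.length = 15 := rfl
      rw [h3, tot_E] at h2
      have h4 : wt (B2 ++ w) = goldenRatio := by simp [wt, B2, wd]
      rw [h4] at h2
      have := (wt_pos w).2
      linarith
    calc tot (A (q + 1)) ≤ (goldenRatio ^ 15 - 1) * tot (A q) := h1
      _ ≤ (goldenRatio ^ 15 - 1) * ((goldenRatio ^ 15 - 1) ^ q * goldenRatio) :=
          mul_le_mul_of_nonneg_left ih hp
      _ = _ := by ring

lemma length_le_tot (L : List (List Bool)) : (L.length : ℝ) ≤ tot L := by
  induction L with
  | nil => simp [tot]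
  | cons a L ih =>
    rw [tot_cons, List.length_cons]
    push_cast
    linarith [(wt_pos a).1]

lemma length_A (q : ℕ) : ((A q).length : ℝ) ≤ (goldenRatio ^ 15 - 1) ^ q * goldenRatio :=
  (length_le_tot _).trans (tot_A q)

lemma mem_A (q : ℕ) : ∀ s : List Bool, Valid s → s.length = 15 * q → ¬ B2 <:+: s → s ∈ A q := by
  induction q with
  | zero => intro s _ hl _; simp at hl; simp [A, hl]
  | succ q ih =>
    intro s hs hl hav
    have e : s.take 15 ++ s.drop 15 = s := List.take_append_drop 15 s
    have hlt : (s.take 15).length = 15 := by simp; omega
    have hs' : Valid (s.take 15 ++ s.drop 15) := by rw [e]; exact hs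
    have h1 : s.drop 15 ∈ A q := by
      refine ih _ (valid_right hs') (by simp; omega) (fun h => hav ?_)
      exact h.trans (List.drop_suffix 15 s).isInfix
    refine List.mem_flatMap.2 ⟨s.drop 15, h1, List.mem_filter.2 ⟨?_, ?_⟩⟩
    · have := mem_E hs'
      rw [e, hlt] at this
      exact this
    · rw [decide_eq_true_eq]
      intro h
      exact hav ⟨[], s.drop 15, by simpa using h.symm⟩

end Pool.Agent.Q208.FTM
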